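import Pool.Agent.W_MP_f895a2_an.Flip

set_option autoImplicit false

namespace Pool.Agent.W_MP_f895a2_an

open scoped ENNReal
open Filter

/-- limits along a free ultrafilter -/
noncomputable def ulim (u : ℕ → ℝ) : ℝ := limUnder (hyperfilter ℕ : Filter ℕ) u

lemma tendsto_ulim {u : ℕ → ℝ} {C : ℝ} (h : ∀ n, |u n| ≤ C) :
    Tendsto u (hyperfilter ℕ : Filter ℕ) (nhds (ulim u)) := by
  have hc : IsCompact (Set.Icc (-C) C) := isCompact_Icc
  obtain ⟨x, _, hx⟩ := hc.ultrafilter_le_nhds ((hyperfilter ℕ).map u) (by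
    rw [Ultrafilter.coe_map, le_principal_iff, mem_map]
    exact Filter.univ_mem' fun n => abs_le.1 (h n))
  have hx' : Tendsto u (hyperfilter ℕ : Filter ℕ) (nhds x) := by
    simpa [Tendsto, Ultrafilter.coe_map] using hx
  have : ulim u = x := hx'.limUnder_eq
  rw [this]
  exact hx'

lemma ulim_eq {u : ℕ → ℝ} {x : ℝ} (h : Tendsto u (hyperfilter ℕ : Filter ℕ) (nhds x)) :
    ulim u = x := h.limUnder_eq

lemma eventually_hyper {p : ℕ → Prop} {N : ℕ} (h : ∀ n, N ≤ n → p n) :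
    ∀ᶠ n in (hyperfilter ℕ : Filter ℕ), p n := by
  have h1 : ∀ᶠ n in (atTop : Filter ℕ), p n := eventually_atTop.2 ⟨N, h⟩
  have h2 : (hyperfilter ℕ : Filter ℕ) ≤ atTop := by
    rw [← Nat.cofinite_eq_atTop]
    exact hyperfilter_le_cofinite
  exact h2 h1

/-- the limit coordinate functionals -/
noncomputable def qq (i : ℕ) (T : Y →L[ℝ] Y) : ℝ := ulim (fun m => rp m T i)

lemma abs_rp_le (m : ℕ) (T : Y →L[ℝ] Y) (i : ℕ) : |rp m T i| ≤ (68 / 15) * ‖T‖ := by
  refine le_trans ?_ (sum_rp m T (i + 1))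
  exact Finset.single_le_sum (f := fun i => |rp m T i|) (fun _ _ => abs_nonneg _)
    (Finset.mem_range.2 (Nat.lt_succ_self i))

lemma tendsto_qq (i : ℕ) (T : Y →L[ℝ] Y) :
    Tendsto (fun m => rp m T i) (hyperfilter ℕ : Filter ℕ) (nhds (qq i T)) :=
  tendsto_ulim (fun m => abs_rp_le m T i)

lemma sum_qq (T : Y →L[ℝ] Y) (N : ℕ) :
    ∑ i ∈ Finset.range N, |qq i T| ≤ (68 / 15) * ‖T‖ := by
  have h : Tendsto (fun m => ∑ i ∈ Finset.range N, |rp m T i|) (hyperfilter ℕ : Filter ℕ)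
      (nhds (∑ i ∈ Finset.range N, |qq i T|)) :=
    tendsto_finsetSum _ fun i _ => (tendsto_qq i T).abs
  exact le_of_tendsto h (Eventually.of_forall fun m => sum_rp m T N)

lemma summable_abs_qq (T : Y →L[ℝ] Y) : Summable (fun i => |qq i T|) :=
  summable_of_sum_range_le (fun _ => abs_nonneg _) (sum_qq T)

lemma summable_qq (T : Y →L[ℝ] Y) : Summable (fun i => qq i T) :=
  (summable_abs_qq T).of_abs

lemma summable_qq_shift (T : Y →L[ℝ] Y) (n : ℕ) : Summable (fun i => qq (i + n) T) :=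
  (summable_nat_add_iff n).2 (summable_qq T)

lemma qq_add (i : ℕ) (S T : Y →L[ℝ] Y) : qq i (S + T) = qq i S + qq i T := by
  refine ulim_eq ?_
  simp only [rp_add]
  exact (tendsto_qq i S).add (tendsto_qq i T)

lemma qq_smul (i : ℕ) (c : ℝ) (T : Y →L[ℝ] Y) : qq i (c • T) = c * qq i T := by
  refine ulim_eq ?_
  simp only [rp_smul]
  exact (tendsto_qq i T).const_mul c

lemma qq_fl (i j : ℕ) : qq j (fl i) = if i = j then 1 else 0 := by
  refine ulim_eq ?_
  refine Tendsto.congr' (f₁ := fun _ => if i = j then (1 : ℝ) else 0) ?_ tendsto_const_nhds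
  refine eventually_hyper (N := max i j + 1) fun m hm => ?_
  exact (rp_fl m i j (by omega) (by omega)).symm

lemma abs_tail_le (T : Y →L[ℝ] Y) (n : ℕ) : |∑' i, qq (i + n) T| ≤ (68 / 15) * ‖T‖ := by
  have h1 : Summable (fun i => |qq (i + n) T|) :=
    (summable_nat_add_iff (f := fun i => |qq i T|) n).2 (summable_abs_qq T)
  have h2 : |∑' i, qq (i + n) T| ≤ ∑' i, |qq (i + n) T| := by
    simpa only [Real.norm_eq_abs] using norm_tsum_le_tsum_norm (f := fun i => qq (i + n) T) h1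
  refine h2.trans (h1.tsum_le_of_sum_range_le fun N => ?_)
  refine le_trans ?_ (sum_qq T (N + n))
  have h3 : ∑ i ∈ Finset.range N, |qq (i + n) T|
      = ∑ i ∈ (Finset.range N).map (addRightEmbedding n), |qq i T| := by
    rw [Finset.sum_map]; rfl
  rw [h3]
  refine Finset.sum_le_sum_of_subset_of_nonneg ?_ (fun _ _ _ => abs_nonneg _)
  intro k hk
  simp only [Finset.mem_map, Finset.mem_range, addRightEmbedding_apply] at hk ⊢
  omega

/-- the weak-star null sequence -/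
noncomputable def ff (n : ℕ) : (Y →L[ℝ] Y) →L[ℝ] ℝ :=
  LinearMap.mkContinuous
    { toFun := fun T => ∑' i, qq (i + n) T
      map_add' := fun S T => by
        simp only [qq_add]
        exact (summable_qq_shift S n).tsum_add (summable_qq_shift T n)
      map_smul' := fun c T => by
        simp only [qq_smul, RingHom.id_apply, smul_eq_mul]
        exact tsum_mul_left }
    (68 / 15) (fun T => abs_tail_le T n)

lemma ff_apply (n : ℕ) (T : Y →L[ℝ] Y) : ff n T = ∑' i, qq (i + n) T := rfl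

lemma tendsto_ff (T : Y →L[ℝ] Y) : Tendsto (fun n => ff n T) atTop (nhds 0) := by
  simp only [ff_apply]
  exact tendsto_sum_nat_add (fun i => qq i T)

lemma ff_fl (n j : ℕ) (h : n ≤ j) : ff n (fl j) = 1 := by
  rw [ff_apply, tsum_eq_single (j - n)]
  · rw [qq_fl, if_pos (by omega)]
  · intro i hi
    rw [qq_fl, if_neg (by omega)]

lemma abs_apply_fl (f : (Y →L[ℝ] Y) →L[ℝ] ℝ) (j : ℕ) : |f (fl j)| ≤ ‖f‖ := by
  have h := f.le_opNorm (fl j)
  rw [Real.norm_eq_abs] at h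
  have h1 := norm_fl_le j
  have h2 := norm_nonneg f
  nlinarith [norm_nonneg (fl j)]

/-- the functional on the dual, as a linear map -/
noncomputable def bigLin : ((Y →L[ℝ] Y) →L[ℝ] ℝ) →ₗ[ℝ] ℝ where
  toFun f := ulim (fun j => f (fl j))
  map_add' f g := by
    refine ulim_eq ?_
    exact (tendsto_ulim (abs_apply_fl f)).add (tendsto_ulim (abs_apply_fl g))
  map_smul' c f := by
    refine ulim_eq ?_
    exact (tendsto_ulim (abs_apply_fl f)).const_mul c

lemma abs_bigLin (f : (Y →L[ℝ] Y) →L[ℝ] ℝ) : ‖bigLin f‖ ≤ 1 * ‖f‖ := by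
  rw [one_mul, Real.norm_eq_abs]
  have h := (tendsto_ulim (abs_apply_fl f)).abs
  exact le_of_tendsto h (Eventually.of_forall fun j => abs_apply_fl f j)

/-- the functional on the dual -/
noncomputable def bigPhi : ((Y →L[ℝ] Y) →L[ℝ] ℝ) →L[ℝ] ℝ :=
  LinearMap.mkContinuous (E := (Y →L[ℝ] Y) →L[ℝ] ℝ) (F := ℝ) bigLin 1 abs_bigLin

lemma bigPhi_ff (n : ℕ) : bigPhi (ff n) = 1 := by
  have h : bigPhi (ff n) = ulim (fun j => ff n (fl j)) := rfl
  rw [h]
  refine ulim_eq ?_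
  refine Tendsto.congr' (f₁ := fun _ => (1 : ℝ)) ?_ tendsto_const_nhds
  exact eventually_hyper (N := n) fun j hj => (ff_fl n j hj).symm

theorem not_grothendieck :
    ¬ (∀ (Y : Type) [NormedAddCommGroup Y] [NormedSpace ℝ Y] [CompleteSpace Y]
      [UniformConvexSpace Y],
      ∀ f : ℕ → ((Y →L[ℝ] Y) →L[ℝ] ℝ),
        (∀ T : Y →L[ℝ] Y, Filter.Tendsto (fun n => f n T) Filter.atTop (nhds 0)) →
        ∀ φ : ((Y →L[ℝ] Y) →L[ℝ] ℝ) →L[ℝ] ℝ,
          Filter.Tendsto (fun n => φ (f n)) Filter.atTop (nhds 0)) := by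
  intro H
  have h := H Y ff tendsto_ff bigPhi
  simp only [bigPhi_ff] at h
  exact one_ne_zero (tendsto_nhds_unique tendsto_const_nhds h)

end Pool.Agent.W_MP_f895a2_an
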