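import Pool.Agent.W_MP_f895a2_an.Est

set_option autoImplicit false

namespace Pool.Agent.W_MP_f895a2_an

open scoped ENNReal

/-- the local matrices of the coordinate functional `ph T j` -/
noncomputable def Nj {m : ℕ} (j k : Fin m) (t t' : Bool) : ℂ :=
  if k = j then (if t = false ∧ t' = true then 1 else 0) else (if t = t' then 1 / 2 else 0)

/-- the coordinate functionals -/
noncomputable def ph {m : ℕ} (T : Y →L[ℝ] Y) (j : Fin m) : ℂ :=
  ∑ z : Fin m → Bool, ∑ z' : Fin m → Bool, ent T z z' * ∏ k, Nj j k (z k) (z' k)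

lemma hasDerivAt_Mx (x : ℂ) (t t' : Bool) (s : ℂ) :
    HasDerivAt (fun s : ℂ => Mx (s * x) t t') (if t = false ∧ t' = true then x else 0) s := by
  cases t <;> cases t' <;> simp only [Mx]
  · simpa using hasDerivAt_const s (1 / 2 : ℂ)
  · simpa using (hasDerivAt_id s).mul_const x
  · simpa using hasDerivAt_const s (0 : ℂ)
  · simpa using hasDerivAt_const s (1 / 2 : ℂ)

lemma hasDerivAt_prod {m : ℕ} (x : Fin m → ℂ) (z z' : Fin m → Bool) :
    HasDerivAt (fun s : ℂ => ∏ k, Mx (s * x k) (z k) (z' k))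
      (∑ j, x j * ∏ k, Nj j k (z k) (z' k)) 0 := by
  have h := HasDerivAt.fun_finsetProd (u := Finset.univ) (x := (0 : ℂ))
    (f := fun k s => Mx (s * x k) (z k) (z' k))
    (f' := fun k => if z k = false ∧ z' k = true then x k else 0)
    (fun k _ => hasDerivAt_Mx (x k) (z k) (z' k) 0)
  refine h.congr_deriv ?_
  refine Finset.sum_congr rfl fun j _ => ?_
  rw [← Finset.mul_prod_erase Finset.univ _ (Finset.mem_univ j), smul_eq_mul]
  have h1 : ∏ k ∈ Finset.univ.erase j, Nj j k (z k) (z' k)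
      = ∏ k ∈ Finset.univ.erase j, Mx (0 * x k) (z k) (z' k) := by
    refine Finset.prod_congr rfl fun k hk => ?_
    have hkj : k ≠ j := Finset.ne_of_mem_erase hk
    unfold Nj Mx
    rw [if_neg hkj]
    cases z k <;> cases z' k <;> simp
  rw [h1]
  unfold Nj
  rw [if_pos rfl]
  split_ifs <;> ring

lemma hasDerivAt_BB {m : ℕ} (T : Y →L[ℝ] Y) (x : Fin m → ℂ) :
    HasDerivAt (fun s : ℂ => BB T (fun k => s * x k)) (∑ j, x j * ph T j) 0 := by
  have h : HasDerivAt (fun s : ℂ => BB T (fun k => s * x k))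
      (∑ z : Fin m → Bool, ∑ z' : Fin m → Bool, ent T z z' *
        ∑ j, x j * ∏ k, Nj j k (z k) (z' k)) 0 := by
    unfold BB
    refine HasDerivAt.fun_sum fun z _ => HasDerivAt.fun_sum fun z' _ => ?_
    exact (hasDerivAt_prod x z z').const_mul (ent T z z')
  refine h.congr_deriv ?_
  unfold ph
  simp_rw [Finset.mul_sum]
  rw [Finset.sum_comm (s := (Finset.univ : Finset (Fin m)))]
  refine Finset.sum_congr rfl fun z _ => ?_
  rw [Finset.sum_comm (s := (Finset.univ : Finset (Fin m)))]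
  refine Finset.sum_congr rfl fun z' _ => Finset.sum_congr rfl fun j _ => ?_
  ring

lemma differentiable_BB {m : ℕ} (T : Y →L[ℝ] Y) (x : Fin m → ℂ) :
    Differentiable ℂ (fun s : ℂ => BB T (fun k => s * x k)) := by
  unfold BB
  refine Differentiable.fun_sum fun z _ => Differentiable.fun_sum fun z' _ => ?_
  refine Differentiable.const_mul ?_ _
  refine Differentiable.fun_finsetProd fun k _ => ?_
  intro s
  exact (hasDerivAt_Mx (x k) (z k) (z' k) s).differentiableAt

lemma lin_bound {m : ℕ} (T : Y →L[ℝ] Y) (ω : Fin m → ℂ) (hω : ∀ k, ‖ω k‖ = 1) :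
    ‖∑ j, ((15 / 68 : ℂ) * ω j) * ph T j‖ ≤ ‖T‖ := by
  have h1 := hasDerivAt_BB T (fun k => (15 / 68 : ℂ) * ω k)
  rw [← h1.deriv]
  have h2 := Complex.norm_deriv_le_of_forall_mem_sphere_norm_le (R := 1) (C := ‖T‖) (c := 0)
    (f := fun s : ℂ => BB T (fun k => s * ((15 / 68 : ℂ) * ω k))) one_pos
    (differentiable_BB T _).diffContOnCl ?_
  · simpa using h2
  · intro s hs
    have hs1 : ‖s‖ = 1 := by simpa using hs
    have := BB_bound T (fun k => s * ω k) (fun k => by rw [norm_mul, hs1, hω, one_mul])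
    have h3 : (fun k => s * ((15 / 68 : ℂ) * ω k)) = fun k => (15 / 68 : ℂ) * (s * ω k) := by
      funext k; ring
    simpa only [h3] using this

lemma sum_norm_ph {m : ℕ} (T : Y →L[ℝ] Y) :
    ∑ j : Fin m, ‖ph T j‖ ≤ (68 / 15) * ‖T‖ := by
  let ω : Fin m → ℂ := fun j => if ph T j = 0 then 1 else (‖ph T j‖ : ℂ) / ph T j
  have hω : ∀ j, ‖ω j‖ = 1 := by
    intro j
    by_cases h : ph T j = 0
    · simp [ω, h]
    · simp only [ω, h, if_false]
      rw [norm_div]
      simp [h]
  have h1 := lin_bound T ω hω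
  have h2 : ∀ j, ω j * ph T j = (‖ph T j‖ : ℂ) := by
    intro j
    by_cases h : ph T j = 0
    · simp [ω, h]
    · simp only [ω, h, if_false]
      field_simp
  have h3 : ∑ j, ((15 / 68 : ℂ) * ω j) * ph T j = ((15 / 68 * ∑ j : Fin m, ‖ph T j‖ : ℝ) : ℂ) := by
    push_cast
    rw [Finset.mul_sum]
    refine Finset.sum_congr rfl fun j _ => ?_
    rw [mul_assoc, h2]
  rw [h3, Complex.norm_real, Real.norm_eq_abs, abs_of_nonneg (by positivity)] at h1
  linarith

end Pool.Agent.W_MP_f895a2_an
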