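import Pool.Agent.W_MP_f895a2_an.Vec

set_option autoImplicit false

namespace Pool.Agent.W_MP_f895a2_an

open scoped ENNReal

/-- The fourth root of `1/17`. -/
noncomputable def bb : ℝ := Real.sqrt (Real.sqrt (1 / 17))

lemma bb_nonneg : 0 ≤ bb := Real.sqrt_nonneg _

lemma bb_pow : bb ^ 4 = 1 / 17 := by
  have h1 : bb ^ 2 = Real.sqrt (1 / 17) := Real.sq_sqrt (Real.sqrt_nonneg _)
  have h2 : Real.sqrt (1 / 17) ^ 2 = 1 / 17 := Real.sq_sqrt (by norm_num)
  calc bb ^ 4 = (bb ^ 2) ^ 2 := by ring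
    _ = 1 / 17 := by rw [h1, h2]

/-- modulus of the coordinate at `false` -/
noncomputable def uu (c : Fin 3) : ℝ := if c = 0 then 2 * bb else bb
/-- modulus of the coordinate at `true` -/
noncomputable def vv (c : Fin 3) : ℝ := if c = 0 then bb else 2 * bb
/-- the sign -/
noncomputable def sg (c : Fin 3) : ℝ := if c = 1 then -1 else 1
/-- the weights -/
noncomputable def ww (c : Fin 3) : ℝ := if c = 0 then 1 / 2 else if c = 1 then 5 / 16 else 3 / 16

lemma uu_nonneg (c : Fin 3) : 0 ≤ uu c := by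
  unfold uu; split_ifs <;> linarith [bb_nonneg]

lemma vv_nonneg (c : Fin 3) : 0 ≤ vv c := by
  unfold vv; split_ifs <;> linarith [bb_nonneg]

lemma abs_sg (c : Fin 3) : |sg c| = 1 := by
  unfold sg; split_ifs <;> simp

lemma ww_nonneg (c : Fin 3) : 0 ≤ ww c := by
  unfold ww; split_ifs <;> norm_num

lemma uv_pow (c : Fin 3) : uu c ^ 4 + vv c ^ 4 = 1 := by
  have := bb_pow
  unfold uu vv; split_ifs <;> nlinarith

lemma sum_ww : ∑ c, ww c = 1 := by
  simp [Fin.sum_univ_three, ww]; norm_num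

/-- coordinates of the local vector -/
noncomputable def xi (ω : ℂ) (c : Fin 3) (t : Bool) : ℂ :=
  if t then (sg c : ℂ) * (vv c : ℂ) * ω else (uu c : ℂ)

/-- coordinates of the local functional -/
noncomputable def eta (ω : ℂ) (c : Fin 3) (t : Bool) : ℂ :=
  if t then (sg c : ℂ) * (vv c : ℂ) ^ 3 * (starRingEnd ℂ) ω else (uu c : ℂ) ^ 3

lemma norm_xi (ω : ℂ) (hω : ‖ω‖ = 1) (c : Fin 3) (t : Bool) :
    ‖xi ω c t‖ = if t then vv c else uu c := by
  unfold xi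
  cases t
  · simp [abs_of_nonneg (uu_nonneg c)]
  · simp [abs_of_nonneg (vv_nonneg c), abs_sg, hω]

lemma norm_eta (ω : ℂ) (hω : ‖ω‖ = 1) (c : Fin 3) (t : Bool) :
    ‖eta ω c t‖ = ‖xi ω c t‖ ^ 3 := by
  rw [norm_xi ω hω]
  unfold eta
  cases t
  · simp [abs_of_nonneg (uu_nonneg c)]
  · simp [abs_of_nonneg (vv_nonneg c), abs_sg, hω]

/-- the local matrix -/
noncomputable def Mx (x : ℂ) (t t' : Bool) : ℂ :=
  if t = t' then 1 / 2 else if t' then x else 0

lemma local_matrix (ω : ℂ) (hω : ‖ω‖ = 1) (t t' : Bool) :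
    ∑ c, (ww c : ℂ) * (eta ω c t * xi ω c t') = Mx ((15 / 68 : ℂ) * ω) t t' := by
  have hb : (bb : ℂ) ^ 4 = 1 / 17 := by
    rw [← Complex.ofReal_pow, bb_pow]; norm_num
  have hω' : (starRingEnd ℂ) ω * ω = 1 := by
    rw [mul_comm, Complex.mul_conj, Complex.normSq_eq_norm_sq, hω]; simp
  rw [Fin.sum_univ_three]
  cases t <;> cases t' <;>
    simp [Mx, xi, eta, uu, vv, sg, ww]
  · linear_combination (17 / 2 : ℂ) * hb
  · linear_combination (15 / 4 * ω) * hb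
  · ring
  · linear_combination (17 / 2 * (starRingEnd ℂ) ω * ω) * hb + (1 / 2 : ℂ) * hω'

/-- the matrix entries of the complex linear part of `T` between the coordinates of block `m` -/
noncomputable def ent {m : ℕ} (T : Y →L[ℝ] Y) (z z' : Fin m → Bool) : ℂ :=
  (cx T (lp.single 4 (ι z') (1 : ℂ)) : Y) (ι z)

/-- the multi-affine function -/
noncomputable def BB {m : ℕ} (T : Y →L[ℝ] Y) (x : Fin m → ℂ) : ℂ :=
  ∑ z : Fin m → Bool, ∑ z' : Fin m → Bool, ent T z z' * ∏ k, Mx (x k) (z k) (z' k)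

lemma sum_ent {m : ℕ} (T : Y →L[ℝ] Y) (ξ : (Fin m → Bool) → ℂ) (z : Fin m → Bool) :
    ∑ z', ent T z z' * ξ z' = (cx T (vec ξ) : Y) (ι z) := by
  unfold vec ent
  rw [map_sum, lp.coeFn_sum, Finset.sum_apply]
  refine Finset.sum_congr rfl fun z' _ => ?_
  rw [map_smul, lp.coeFn_smul, Pi.smul_apply, smul_eq_mul, mul_comm]

lemma rank_one_bound {m : ℕ} (T : Y →L[ℝ] Y) (ω : Fin m → ℂ) (hω : ∀ k, ‖ω k‖ = 1)
    (c : Fin m → Fin 3) :
    ‖∑ z : Fin m → Bool, ∑ z' : Fin m → Bool,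
      ent T z z' * ∏ k, (eta (ω k) (c k) (z k) * xi (ω k) (c k) (z' k))‖ ≤ ‖T‖ := by
  set ξ : (Fin m → Bool) → ℂ := fun z => ∏ k, xi (ω k) (c k) (z k) with hξdef
  set η : (Fin m → Bool) → ℂ := fun z => ∏ k, eta (ω k) (c k) (z k) with hηdef
  have hξ : ∑ z, ‖ξ z‖ ^ 4 = 1 := by
    have h1 : ∀ z : Fin m → Bool, ‖ξ z‖ ^ 4 = ∏ k, (if z k then vv (c k) else uu (c k)) ^ 4 := by
      intro z
      rw [hξdef]
      simp only [norm_prod, norm_xi _ (hω _), Finset.prod_pow]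
    simp only [h1]
    rw [← Fintype.prod_sum (f := fun k (t : Bool) => (if t then vv (c k) else uu (c k)) ^ 4)]
    refine Finset.prod_eq_one fun k _ => ?_
    simp only [Fintype.sum_bool]
    have := uv_pow (c k)
    simp
    linarith
  have hη : ∀ z, ‖η z‖ = ‖ξ z‖ ^ 3 := by
    intro z
    rw [hξdef, hηdef]
    simp only [norm_prod, norm_eta _ (hω _), Finset.prod_pow]
  have h2 : (∑ z : Fin m → Bool, ∑ z' : Fin m → Bool,
      ent T z z' * ∏ k, (eta (ω k) (c k) (z k) * xi (ω k) (c k) (z' k)))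
      = ∑ z, η z * (cx T (vec ξ) : Y) (ι z) := by
    refine Finset.sum_congr rfl fun z _ => ?_
    rw [← sum_ent, Finset.mul_sum]
    refine Finset.sum_congr rfl fun z' _ => ?_
    rw [Finset.prod_mul_distrib, hξdef, hηdef]
    ring
  rw [h2]
  refine (pairing ξ η hξ hη _).trans ?_
  refine (norm_cx_le T _).trans ?_
  have h3 : ‖vec ξ‖ ^ 4 = 1 := by rw [norm_vec, hξ]
  have h4 : ‖vec ξ‖ = 1 := by
    have h5 : 0 ≤ ‖vec ξ‖ := norm_nonneg _
    exact (pow_eq_one_iff_of_nonneg h5 (by norm_num)).1 h3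
  rw [h4, mul_one]

lemma BB_bound {m : ℕ} (T : Y →L[ℝ] Y) (ω : Fin m → ℂ) (hω : ∀ k, ‖ω k‖ = 1) :
    ‖BB T (fun k => (15 / 68 : ℂ) * ω k)‖ ≤ ‖T‖ := by
  have h1 : BB T (fun k => (15 / 68 : ℂ) * ω k) = ∑ c : Fin m → Fin 3, (∏ k, (ww (c k) : ℂ)) *
      ∑ z : Fin m → Bool, ∑ z' : Fin m → Bool,
      ent T z z' * ∏ k, (eta (ω k) (c k) (z k) * xi (ω k) (c k) (z' k)) := by
    unfold BB
    simp_rw [← local_matrix _ (hω _)]
    simp_rw [Fintype.prod_sum, Finset.mul_sum]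
    rw [Finset.sum_congr rfl (fun z _ => Finset.sum_comm), Finset.sum_comm]
    refine Finset.sum_congr rfl fun c _ => Finset.sum_congr rfl fun z _ =>
      Finset.sum_congr rfl fun z' _ => ?_
    rw [Finset.prod_mul_distrib]
    ring
  rw [h1]
  refine (norm_sum_le _ _).trans ?_
  have h2 : ∀ c : Fin m → Fin 3, ‖(∏ k, (ww (c k) : ℂ)) *
      ∑ z : Fin m → Bool, ∑ z' : Fin m → Bool,
      ent T z z' * ∏ k, (eta (ω k) (c k) (z k) * xi (ω k) (c k) (z' k))‖ ≤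
      (∏ k, ww (c k)) * ‖T‖ := by
    intro c
    rw [norm_mul, norm_prod]
    have : ∀ k, ‖(ww (c k) : ℂ)‖ = ww (c k) := fun k => by
      simp [abs_of_nonneg (ww_nonneg _)]
    simp only [this]
    exact mul_le_mul_of_nonneg_left (rank_one_bound T ω hω c)
      (Finset.prod_nonneg fun k _ => ww_nonneg _)
  refine (Finset.sum_le_sum fun c _ => h2 c).trans ?_
  rw [← Finset.sum_mul, ← Fintype.prod_sum (f := fun _ c => ww c)]
  simp [sum_ww]

end Pool.Agent.W_MP_f895a2_an
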