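import Pool.Agent.W_MP_f895a2_an.Deg

set_option autoImplicit false

namespace Pool.Agent.W_MP_f895a2_an

open scoped ENNReal

lemma comp_memℓp (π : Equiv.Perm (Finset ℕ)) (f : Y) :
    Memℓp (fun y => (f (π y) : ℂ)) 4 := by
  refine memℓp_gen ?_
  rw [four_toReal]
  have h := (summable_pow_four f).comp_injective π.injective
  have h4 : ∀ x : ℝ, x ^ (4 : ℝ) = x ^ (4 : ℕ) := fun x => by
    rw [← Real.rpow_natCast]; norm_num
  simp only [h4]
  exact h

/-- the composition operator of a permutation of the index set -/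
noncomputable def permLin (π : Equiv.Perm (Finset ℕ)) : Y →ₗ[ℝ] Y where
  toFun f := ⟨fun y => f (π y), comp_memℓp π f⟩
  map_add' f g := by ext y; rfl
  map_smul' c f := by ext y; rfl

lemma permLin_apply (π : Equiv.Perm (Finset ℕ)) (f : Y) (y : Finset ℕ) :
    (permLin π f : Y) y = f (π y) := rfl

lemma norm_permLin (π : Equiv.Perm (Finset ℕ)) (f : Y) : ‖permLin π f‖ = ‖f‖ := by
  have h : ‖permLin π f‖ ^ 4 = ‖f‖ ^ 4 := by
    rw [norm_pow_four, norm_pow_four]
    simp only [permLin_apply]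
    exact π.tsum_eq (fun y => ‖f y‖ ^ 4)
  exact (pow_left_inj₀ (norm_nonneg _) (norm_nonneg _) (by norm_num)).1 h

/-- the composition operator of a permutation of the index set -/
noncomputable def permOp (π : Equiv.Perm (Finset ℕ)) : Y →L[ℝ] Y :=
  (permLin π).mkContinuous 1 (fun f => by rw [norm_permLin, one_mul])

lemma permOp_apply (π : Equiv.Perm (Finset ℕ)) (f : Y) (y : Finset ℕ) :
    (permOp π f : Y) y = f (π y) := rfl

lemma norm_permOp_le (π : Equiv.Perm (Finset ℕ)) : ‖permOp π‖ ≤ 1 :=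
  LinearMap.mkContinuous_norm_le _ zero_le_one _

/-- the flip of the coordinate `i` -/
noncomputable def flipPerm (i : ℕ) : Equiv.Perm (Finset ℕ) where
  toFun y := symmDiff y {i}
  invFun y := symmDiff y {i}
  left_inv y := by simp
  right_inv y := by simp

/-- the flip operators -/
noncomputable def fl (i : ℕ) : Y →L[ℝ] Y := permOp (flipPerm i)

lemma norm_fl_le (i : ℕ) : ‖fl i‖ ≤ 1 := norm_permOp_le _

lemma cx_fl (i : ℕ) (v : Y) : cx (fl i) v = fl i v := by
  have h1 : fl i (Complex.I • v) = Complex.I • fl i v := by ext y; rfl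
  have h0 : cx (fl i) v = (1 / 2 : ℂ) • (fl i v - Complex.I • fl i (Complex.I • v)) := rfl
  rw [h0, h1, smul_smul, Complex.I_mul_I]
  module

lemma ent_fl {m : ℕ} (i : ℕ) (z z' : Fin m → Bool) :
    ent (fl i) z z' = if symmDiff (ι z) {i} = ι z' then 1 else 0 := by
  classical
  unfold ent
  rw [cx_fl]
  have h : (fl i (lp.single 4 (ι z') (1 : ℂ)) : Y) (ι z)
      = (lp.single 4 (ι z') (1 : ℂ) : Y) (symmDiff (ι z) {i}) := rfl
  rw [h, lp.single_apply]
  by_cases hh : symmDiff (ι z) {i} = ι z'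
  · rw [if_pos hh]
    simp [hh]
  · rw [if_neg hh]
    simp [hh]

lemma ph_fl {m : ℕ} (i j : Fin m) : ph (fl (i : ℕ)) j = if i = j then 1 else 0 := by
  classical
  unfold ph
  have h1 : ∀ z z' : Fin m → Bool, ent (fl (i : ℕ)) z z'
      = if Function.update z i (!z i) = z' then (1 : ℂ) else 0 := by
    intro z z'
    rw [ent_fl, ι_flip]
    simp only [ι_inj.eq_iff]
  simp only [h1, ite_mul, one_mul, zero_mul]
  simp only [Finset.sum_ite_eq, Finset.mem_univ, if_true]
  by_cases hij : i = j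
  · subst hij
    rw [if_pos rfl]
    have h2 : ∀ z : Fin m → Bool, ∏ k, Nj i k (z k) (Function.update z i (!z i) k)
        = ∏ k, (if k = i then (if z k = false then (1 : ℂ) else 0) else 1 / 2) := by
      intro z
      refine Finset.prod_congr rfl fun k _ => ?_
      unfold Nj
      by_cases hk : k = i
      · subst hk
        simp
      · simp [hk]
    simp only [h2]
    rw [← Fintype.prod_sum (f := fun (k : Fin m) (t : Bool) =>
      (if k = i then (if t = false then (1 : ℂ) else 0) else 1 / 2))]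
    refine Finset.prod_eq_one fun k _ => ?_
    by_cases hk : k = i
    · simp [hk]
    · simp [hk]
  · rw [if_neg hij]
    refine Finset.sum_eq_zero fun z _ => ?_
    refine Finset.prod_eq_zero (Finset.mem_univ j) ?_
    unfold Nj
    rw [if_pos rfl, Function.update_of_ne (Ne.symm hij)]
    rw [if_neg]
    rintro ⟨h3, h4⟩
    rw [h3] at h4
    exact absurd h4 (by decide)

lemma cx_add (S T : Y →L[ℝ] Y) (v : Y) : cx (S + T) v = cx S v + cx T v := by
  have h0 : ∀ T : Y →L[ℝ] Y, cx T v = (1 / 2 : ℂ) • (T v - Complex.I • T (Complex.I • v)) :=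
    fun _ => rfl
  rw [h0, h0, h0]
  simp only [add_apply]
  module

lemma cx_smul (c : ℝ) (T : Y →L[ℝ] Y) (v : Y) : cx (c • T) v = (c : ℂ) • cx T v := by
  have h0 : ∀ T : Y →L[ℝ] Y, cx T v = (1 / 2 : ℂ) • (T v - Complex.I • T (Complex.I • v)) :=
    fun _ => rfl
  rw [h0, h0]
  have h1 : ∀ w : Y, c • w = (c : ℂ) • w := fun _ => rfl
  simp only [smul_apply, h1]
  module

lemma ph_add {m : ℕ} (S T : Y →L[ℝ] Y) (j : Fin m) : ph (S + T) j = ph S j + ph T j := by
  unfold ph ent
  simp only [cx_add, lp.coeFn_add, Pi.add_apply, add_mul, Finset.sum_add_distrib]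

lemma ph_smul {m : ℕ} (c : ℝ) (T : Y →L[ℝ] Y) (j : Fin m) :
    ph (c • T) j = (c : ℂ) * ph T j := by
  unfold ph ent
  simp only [cx_smul, lp.coeFn_smul, Pi.smul_apply, smul_eq_mul, mul_assoc, Finset.mul_sum]

/-- the real coordinate functionals, extended by zero -/
noncomputable def rp (m : ℕ) (T : Y →L[ℝ] Y) (i : ℕ) : ℝ :=
  if h : i < m then (ph T (⟨i, h⟩ : Fin m)).re else 0

lemma rp_add (m : ℕ) (S T : Y →L[ℝ] Y) (i : ℕ) : rp m (S + T) i = rp m S i + rp m T i := by
  unfold rp
  split_ifs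
  · rw [ph_add, Complex.add_re]
  · simp

lemma rp_smul (m : ℕ) (c : ℝ) (T : Y →L[ℝ] Y) (i : ℕ) : rp m (c • T) i = c * rp m T i := by
  unfold rp
  split_ifs
  · rw [ph_smul, Complex.re_ofReal_mul]
  · simp

lemma rp_fl (m i j : ℕ) (hi : i < m) (hj : j < m) :
    rp m (fl i) j = if i = j then 1 else 0 := by
  unfold rp
  rw [dif_pos hj]
  have h := ph_fl (m := m) ⟨i, hi⟩ ⟨j, hj⟩
  have h' : ph (m := m) (fl i) ⟨j, hj⟩ = if i = j then 1 else 0 := by
    simpa [Fin.ext_iff] using h
  rw [h']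
  split_ifs <;> simp

lemma sum_rp (m : ℕ) (T : Y →L[ℝ] Y) (N : ℕ) :
    ∑ i ∈ Finset.range N, |rp m T i| ≤ (68 / 15) * ‖T‖ := by
  refine le_trans ?_ (sum_norm_ph (m := m) T)
  have h1 : ∑ i ∈ Finset.range N, |rp m T i| ≤ ∑ i ∈ Finset.range (max N m), |rp m T i| :=
    Finset.sum_le_sum_of_subset_of_nonneg
      (Finset.range_subset_range.2 (le_max_left _ _)) (fun _ _ _ => abs_nonneg _)
  have h2 : ∑ i ∈ Finset.range (max N m), |rp m T i| = ∑ i ∈ Finset.range m, |rp m T i| := by
    symm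
    refine Finset.sum_subset (Finset.range_subset_range.2 (le_max_right _ _)) ?_
    intro i _ hi
    have : ¬ i < m := by simpa using hi
    simp [rp, this]
  refine (h1.trans_eq (h2.trans (Finset.sum_range _))).trans (Finset.sum_le_sum fun j _ => ?_)
  have : rp m T (j : ℕ) = (ph T j).re := by simp [rp, j.2]
  rw [this]
  exact Complex.abs_re_le_norm _

end Pool.Agent.W_MP_f895a2_an
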