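import Mathlib

set_option autoImplicit false

namespace Pool.Agent.W_MP_f895a2_an

open scoped ENNReal

instance factOneLeFour : Fact ((1 : ℝ≥0∞) ≤ 4) := ⟨by norm_num⟩

/-- The complex sequence space l^4 indexed by the finite sets of naturals. -/
abbrev Y : Type := lp (fun _ : Finset ℕ => ℂ) 4

lemma four_toReal : (4 : ℝ≥0∞).toReal = 4 := by simp

lemma norm_pow_four (f : Y) : ‖f‖ ^ 4 = ∑' i, ‖f i‖ ^ 4 := by
  have h := lp.norm_rpow_eq_tsum (p := 4) (by rw [four_toReal]; norm_num) f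
  rw [four_toReal] at h
  simpa using h

lemma summable_pow_four (f : Y) : Summable (fun i => ‖f i‖ ^ 4) := by
  have h := (lp.memℓp f).summable (by rw [four_toReal]; norm_num)
  rw [four_toReal] at h
  simpa using h

lemma scalar_clarkson (a b : ℂ) : ‖a + b‖ ^ 4 + ‖a - b‖ ^ 4 ≤ 8 * (‖a‖ ^ 4 + ‖b‖ ^ 4) := by
  have h1 : ‖a + b‖ ^ 2 + ‖a - b‖ ^ 2 = 2 * (‖a‖ ^ 2 + ‖b‖ ^ 2) := by
    have := parallelogram_law_with_norm ℝ a b
    nlinarith [this]
  have h2 : ‖a + b‖ ^ 4 + ‖a - b‖ ^ 4 ≤ (‖a + b‖ ^ 2 + ‖a - b‖ ^ 2) ^ 2 := by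
    nlinarith [sq_nonneg (‖a + b‖ * ‖a - b‖)]
  rw [h1] at h2
  nlinarith [sq_nonneg (‖a‖ ^ 2 - ‖b‖ ^ 2)]

lemma clarkson (x y : Y) : ‖x + y‖ ^ 4 + ‖x - y‖ ^ 4 ≤ 8 * (‖x‖ ^ 4 + ‖y‖ ^ 4) := by
  rw [norm_pow_four, norm_pow_four, norm_pow_four, norm_pow_four,
    ← (summable_pow_four (x + y)).tsum_add (summable_pow_four (x - y)),
    ← (summable_pow_four x).tsum_add (summable_pow_four y), ← tsum_mul_left]
  refine Summable.tsum_le_tsum ?_ ((summable_pow_four (x + y)).add (summable_pow_four (x - y)))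
    (((summable_pow_four x).add (summable_pow_four y)).mul_left 8)
  intro i
  simpa using scalar_clarkson (x i) (y i)

instance : UniformConvexSpace Y where
  uniform_convex := by
    intro ε hε
    refine ⟨ε ^ 4 / 32, by positivity, ?_⟩
    intro x hx y hy hxy
    have hc := clarkson x y
    rw [hx, hy] at hc
    have h2 : ε ≤ 2 := by
      refine hxy.trans ?_
      calc ‖x - y‖ ≤ ‖x‖ + ‖y‖ := norm_sub_le _ _
        _ = 2 := by rw [hx, hy]; norm_num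
    have h4 : ε ^ 4 ≤ ‖x - y‖ ^ 4 := by gcongr
    have h5 : ε ^ 4 ≤ 2 ^ 4 := by gcongr
    have h6 : ‖x + y‖ ^ 4 ≤ 16 - ε ^ 4 := by linarith
    set δ := ε ^ 4 / 32 with hδ
    have hδ0 : 0 < δ := by positivity
    have hδ1 : δ ≤ 1 / 2 := by rw [hδ]; linarith
    have h7 : 16 - ε ^ 4 ≤ (2 - δ) ^ 4 := by
      have : ε ^ 4 = 32 * δ := by rw [hδ]; ring
      rw [this]
      nlinarith [mul_pos hδ0 hδ0, sq_nonneg (δ * (δ - 4)), sq_nonneg δ]
    exact le_of_pow_le_pow_left₀ (by norm_num) (by linarith) (h6.trans h7)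

end Pool.Agent.W_MP_f895a2_an
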