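import Pool.Agent.W_MP_f895a2_an.UC

set_option autoImplicit false

namespace Pool.Agent.W_MP_f895a2_an

open scoped ENNReal

/-- The finite set of naturals attached to a Boolean vector. -/
def ι {m : ℕ} (z : Fin m → Bool) : Finset ℕ :=
  (Finset.univ.filter (fun k => z k = true)).map Fin.valEmbedding

lemma mem_ι {m : ℕ} (z : Fin m → Bool) (k : Fin m) : (k : ℕ) ∈ ι z ↔ z k = true := by
  simp [ι, Fin.val_inj]

lemma lt_of_mem_ι {m : ℕ} (z : Fin m → Bool) {k : ℕ} (h : k ∈ ι z) : k < m := by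
  simp only [ι, Finset.mem_map, Finset.mem_filter, Finset.mem_univ, true_and,
    Fin.valEmbedding_apply] at h
  obtain ⟨a, _, rfl⟩ := h
  exact a.2

lemma ι_inj {m : ℕ} : Function.Injective (ι (m := m)) := by
  intro z w h
  funext k
  have h1 := mem_ι z k
  have h2 := mem_ι w k
  rw [h, h2] at h1
  cases hz : z k <;> cases hw : w k <;> simp_all

lemma ι_flip {m : ℕ} (z : Fin m → Bool) (j : Fin m) :
    symmDiff (ι z) {(j : ℕ)} = ι (Function.update z j (!z j)) := by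
  ext k
  rw [Finset.mem_symmDiff, Finset.mem_singleton]
  by_cases hk : k < m
  · obtain ⟨i, rfl⟩ : ∃ i : Fin m, (i : ℕ) = k := ⟨⟨k, hk⟩, rfl⟩
    rw [mem_ι, mem_ι]
    by_cases hij : i = j
    · subst hij
      simp
    · have : (i : ℕ) ≠ j := fun h => hij (Fin.ext h)
      simp [Function.update_of_ne hij, this]
  · have h1 : k ∉ ι z := fun h => hk (lt_of_mem_ι _ h)
    have h2 : k ∉ ι (Function.update z j (!z j)) := fun h => hk (lt_of_mem_ι _ h)
    have h3 : k ≠ (j : ℕ) := fun h => hk (h ▸ j.2)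
    simp [h1, h2, h3]

/-- The vector of `Y` with coordinates `ξ z` at `ι z`. -/
noncomputable def vec {m : ℕ} (ξ : (Fin m → Bool) → ℂ) : Y :=
  ∑ z, ξ z • (lp.single 4 (ι z) (1 : ℂ) : Y)

lemma norm_vec {m : ℕ} (ξ : (Fin m → Bool) → ℂ) : ‖vec ξ‖ ^ 4 = ∑ z, ‖ξ z‖ ^ 4 := by
  classical
  let emb : (Fin m → Bool) ↪ Finset ℕ := ⟨ι, ι_inj⟩
  let F : Finset ℕ → ℂ := Function.extend ι ξ 0
  have hF : ∀ z, F (ι z) = ξ z := fun z => ι_inj.extend_apply ξ 0 z
  have h1 : vec ξ = ∑ i ∈ Finset.univ.map emb, (lp.single 4 i (F i) : Y) := by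
    rw [Finset.sum_map]
    unfold vec
    refine Finset.sum_congr rfl (fun z _ => ?_)
    have : (emb z) = ι z := rfl
    rw [this, hF, ← lp.single_smul]
    simp
  have h2 := lp.norm_sum_single (p := 4) (by rw [four_toReal]; norm_num) F (Finset.univ.map emb)
  rw [← h1, four_toReal, Finset.sum_map] at h2
  have h3 : ∀ z, emb z = ι z := fun _ => rfl
  simp only [h3, hF] at h2
  have h4 : ∀ x : ℝ, x ^ (4 : ℝ) = x ^ (4 : ℕ) := fun x => by
    rw [← Real.rpow_natCast]; norm_num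
  simpa only [h4] using h2

lemma sum_coord_le {m : ℕ} (g : Y) : ∑ z : Fin m → Bool, ‖g (ι z)‖ ^ 4 ≤ ‖g‖ ^ 4 := by
  classical
  let emb : (Fin m → Bool) ↪ Finset ℕ := ⟨ι, ι_inj⟩
  have h := lp.sum_rpow_le_norm_rpow (p := 4) (by rw [four_toReal]; norm_num) g
    (Finset.univ.map emb)
  rw [four_toReal, Finset.sum_map] at h
  have h4 : ∀ x : ℝ, x ^ (4 : ℝ) = x ^ (4 : ℕ) := fun x => by
    rw [← Real.rpow_natCast]; norm_num
  have h3 : ∀ z, emb z = ι z := fun _ => rfl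
  simpa only [h4, h3] using h

lemma young (a c : ℝ) : a ^ 3 * c ≤ (3 * a ^ 4 + c ^ 4) / 4 := by
  nlinarith [mul_nonneg (sq_nonneg (a - c)) (add_nonneg (mul_nonneg (by norm_num : (0:ℝ) ≤ 2)
    (sq_nonneg a)) (sq_nonneg (a + c)))]

lemma pairing {m : ℕ} (ξ η : (Fin m → Bool) → ℂ) (hξ : ∑ z, ‖ξ z‖ ^ 4 = 1)
    (hη : ∀ z, ‖η z‖ = ‖ξ z‖ ^ 3) (g : Y) : ‖∑ z, η z * g (ι z)‖ ≤ ‖g‖ := by
  rcases eq_or_lt_of_le (norm_nonneg g) with h0 | h0
  · have hg : g = 0 := norm_eq_zero.1 h0.symm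
    subst hg
    simp
  · have h1 : ‖∑ z, η z * g (ι z)‖ ≤ ∑ z, ‖ξ z‖ ^ 3 * ‖g (ι z)‖ := by
      refine (norm_sum_le _ _).trans (le_of_eq (Finset.sum_congr rfl fun z _ => ?_))
      rw [norm_mul, hη]
    have h2 : ∑ z, ‖ξ z‖ ^ 3 * (‖g (ι z)‖ / ‖g‖) ≤ 1 := by
      calc ∑ z, ‖ξ z‖ ^ 3 * (‖g (ι z)‖ / ‖g‖)
          ≤ ∑ z, (3 * ‖ξ z‖ ^ 4 + (‖g (ι z)‖ / ‖g‖) ^ 4) / 4 :=
            Finset.sum_le_sum fun z _ => young _ _
        _ = (3 * ∑ z, ‖ξ z‖ ^ 4 + (∑ z : Fin m → Bool, ‖g (ι z)‖ ^ 4) / ‖g‖ ^ 4) / 4 := by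
            rw [← Finset.sum_div, Finset.sum_add_distrib, Finset.mul_sum, Finset.sum_div]
            simp only [div_pow]
        _ ≤ (3 * 1 + 1) / 4 := by
            have : (∑ z : Fin m → Bool, ‖g (ι z)‖ ^ 4) / ‖g‖ ^ 4 ≤ 1 :=
              (div_le_one (by positivity)).2 (sum_coord_le g)
            rw [hξ]
            linarith
        _ = 1 := by norm_num
    have h3 : ∑ z, ‖ξ z‖ ^ 3 * ‖g (ι z)‖ = ‖g‖ * ∑ z, ‖ξ z‖ ^ 3 * (‖g (ι z)‖ / ‖g‖) := by
      rw [Finset.mul_sum]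
      refine Finset.sum_congr rfl fun z _ => ?_
      field_simp
    rw [h3] at h1
    exact h1.trans (by nlinarith)

/-- The complex linear part of a real linear operator. -/
noncomputable def cx (T : Y →L[ℝ] Y) : Y →ₗ[ℂ] Y where
  toFun v := (1 / 2 : ℂ) • (T v - Complex.I • T (Complex.I • v))
  map_add' v w := by
    simp only [smul_add, map_add]
    module
  map_smul' c v := by
    have h1 : ∀ w : Y, c • w = (c.re : ℝ) • w + (c.im : ℝ) • (Complex.I • w) := by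
      intro w
      have : c = (c.re : ℂ) + (c.im : ℂ) * Complex.I := (Complex.re_add_im c).symm
      conv_lhs => rw [this]
      rw [add_smul, mul_smul]
      rfl
    have h2 : Complex.I • (c • v) = (c.re : ℝ) • (Complex.I • v) - (c.im : ℝ) • v := by
      rw [h1 v, smul_add, smul_comm Complex.I (c.re : ℝ) v,
        smul_comm Complex.I (c.im : ℝ) (Complex.I • v), smul_smul, Complex.I_mul_I]
      simp [sub_eq_add_neg]
    have h3 : T ((c.re : ℝ) • v + (c.im : ℝ) • (Complex.I • v))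
        = (c.re : ℝ) • T v + (c.im : ℝ) • T (Complex.I • v) := by
      rw [T.map_add, T.map_smul, T.map_smul]
    have h4 : T ((c.re : ℝ) • (Complex.I • v) - (c.im : ℝ) • v)
        = (c.re : ℝ) • T (Complex.I • v) - (c.im : ℝ) • T v := by
      rw [T.map_sub, T.map_smul, T.map_smul]
    rw [h2, h1 v, h3, h4]
    simp only [RingHom.id_apply]
    rw [h1 ((1 / 2 : ℂ) • (T v - Complex.I • T (Complex.I • v)))]
    have h5 : ∀ (r : ℝ) (w : Y), r • w = (r : ℂ) • w := fun r w => rfl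
    simp only [h5]
    generalize T v = a
    generalize T (Complex.I • v) = b
    match_scalars <;> ring_nf <;> simp [Complex.I_sq] <;> ring

lemma norm_cx_le (T : Y →L[ℝ] Y) (v : Y) : ‖cx T v‖ ≤ ‖T‖ * ‖v‖ := by
  have h0 : cx T v = (1 / 2 : ℂ) • (T v - Complex.I • T (Complex.I • v)) := rfl
  rw [h0, norm_smul]
  have h1 : ‖T v‖ ≤ ‖T‖ * ‖v‖ := T.le_opNorm v
  have h2 : ‖Complex.I • T (Complex.I • v)‖ ≤ ‖T‖ * ‖v‖ := by
    rw [norm_smul, Complex.norm_I, one_mul]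
    refine (T.le_opNorm _).trans ?_
    rw [norm_smul, Complex.norm_I, one_mul]
  have h3 := norm_sub_le (T v) (Complex.I • T (Complex.I • v))
  have h4 : ‖(1 / 2 : ℂ)‖ = 1 / 2 := by simp
  rw [h4]
  linarith

end Pool.Agent.W_MP_f895a2_an
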